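import Pool.Agent.N869.GK.L.Stm

/-!
# GK/PAR: parity of the Selmer rank
-/

set_option autoImplicit false
set_option linter.unusedSectionVars false

open scoped Classical

namespace Pool.Agent.N713.GK

open Finset Module Pool.Agent.N869.GK

section

variable {r : ℕ} {R : Type} [Fintype R]

/-- the ambient space -/
abbrev MM (r : ℕ) (R : Type) : Type := (Fin 2 → Gr r) × (R → V)

lemma dot_add (x y z : Gr r) : dot (x + y) z = dot x z + dot y z := by
  unfold dot
  rw [← sum_add_distrib]
  exact sum_congr rfl fun i _ => by rw [Pi.add_apply]; ring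

lemma Dm_add (D : Par r) (π : Gr r) (v w : V) : Dm D π (v + w) = Dm D π v + Dm D π w := by
  funext c
  fin_cases c
  · simp only [Dm, Pi.add_apply, Fin.zero_eta, Matrix.cons_val_zero]
    ring
  · simp only [Dm, Pi.add_apply, Fin.mk_one, Matrix.cons_val_one, Matrix.cons_val_fin_one]
    ring

/-- the rows as an additive map -/
def rowH (D : Par r) (lab : R → Gr r) (N : R → R → ZMod 2) : MM r R →+ (R → V) :=
  AddMonoidHom.mk' (fun x i => row D lab N univ x.1 x.2 i) (by
    intro x y
    funext i c
    simp only [row, Prod.fst_add, Prod.snd_add, Pi.add_apply, dot_add, Dm_add]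
    have : ∑ j, N i j * (x.2 i c + y.2 i c + (x.2 j c + y.2 j c)) =
        ∑ j, N i j * (x.2 i c + x.2 j c) + ∑ j, N i j * (y.2 i c + y.2 j c) := by
      rw [← sum_add_distrib]
      exact sum_congr rfl fun j _ => by ring
    rw [this]
    ring)

lemma rowH_apply (D : Par r) (lab : R → Gr r) (N : R → R → ZMod 2) (x : MM r R) (i : R) :
    rowH D lab N x i = row D lab N univ x.1 x.2 i := rfl

/-- the local classes as an additive map -/
def XlH (lab : R → Gr r) : MM r R →+ Hr r :=
  AddMonoidHom.mk' (fun x => Xl lab univ x.1 x.2) (by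
    intro x y
    unfold Xl
    refine Prod.ext ?_ ?_
    · rfl
    · funext c
      show ∑ i, (x.2 + y.2) i c • lab i = ∑ i, x.2 i c • lab i + ∑ i, y.2 i c • lab i
      rw [← sum_add_distrib]
      exact sum_congr rfl fun i _ => by rw [Pi.add_apply, Pi.add_apply, add_smul])

/-- the pairs that satisfy the local conditions at the bad places -/
def Ks (D : Par r) (lab : R → Gr r) : Submodule (ZMod 2) (MM r R) :=
  AddSubgroup.toZModSubmodule 2 (D.W.comap (XlH lab))

lemma mem_Ks (D : Par r) (lab : R → Gr r) (x : MM r R) :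
    x ∈ Ks D lab ↔ Xl lab univ x.1 x.2 ∈ D.W := Iff.rfl

/-- the form on `R → V` -/
def BB (R : Type) [Fintype R] : (R → V) →ₗ[ZMod 2] (R → V) →ₗ[ZMod 2] ZMod 2 :=
  LinearMap.mk₂ (ZMod 2) (fun v w => ∑ i, om (v i) (w i))
    (fun v v' w => by
      rw [← sum_add_distrib]
      exact sum_congr rfl fun i _ => by simp only [om, Pi.add_apply]; ring)
    (fun c v w => by
      rw [smul_sum]
      exact sum_congr rfl fun i _ => by simp only [om, Pi.smul_apply, smul_eq_mul]; ring)
    (fun v w w' => by
      rw [← sum_add_distrib]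
      exact sum_congr rfl fun i _ => by simp only [om, Pi.add_apply]; ring)
    (fun c v w => by
      rw [smul_sum]
      exact sum_congr rfl fun i _ => by simp only [om, Pi.smul_apply, smul_eq_mul]; ring)

lemma BB_apply (v w : R → V) : BB R v w = ∑ i, om (v i) (w i) := rfl

lemma BB_symm (v w : R → V) : BB R v w = BB R w v := by
  rw [BB_apply, BB_apply]
  exact sum_congr rfl fun i _ => by simp only [om]; ring

lemma BB_refl : (BB R).IsRefl := by
  intro v w h
  rw [BB_symm]; exact h

lemma BB_left (v : R → V) (h : ∀ w, BB R v w = 0) : v = 0 := by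
  funext i c
  have h1 : ∀ z : V, om (v i) z = 0 := by
    intro z
    have := h (Pi.single i z)
    rw [BB_apply, sum_eq_single i] at this
    · simpa using this
    · intro j _ hj
      rw [Pi.single_eq_of_ne hj]
      simp [om]
    · intro hi; exact absurd (mem_univ i) hi
  have h2 := h1 ![0, 1]
  have h3 := h1 ![1, 0]
  simp only [om, Matrix.cons_val_zero, Matrix.cons_val_one, Matrix.cons_val_fin_one, mul_one,
    mul_zero, add_zero, zero_add] at h2 h3
  fin_cases c
  · exact h2
  · exact h3

lemma BB_nondeg : (BB R).Nondegenerate := by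
  refine ⟨fun v h => BB_left v h, fun v h => BB_left v (fun w => ?_)⟩
  rw [BB_symm]; exact h w

lemma card_V : Nat.card V = 4 := by
  simp [V, Nat.card_eq_fintype_card]

lemma finrank_RV : finrank (ZMod 2) (R → V) = 2 * Fintype.card R := by
  rw [finrank_pi_fintype]
  simp [V, mul_comm]

end

/-- restriction of a linear map to the preimage of a subspace of its range -/
lemma finrank_comap {K M N : Type} [Field K] [AddCommGroup M] [Module K M] [FiniteDimensional K M]
    [AddCommGroup N] [Module K N] (g : M →ₗ[K] N) (P : Submodule K N) (hP : P ≤ LinearMap.range g) :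
    finrank K (P.comap g) = finrank K P + finrank K (LinearMap.ker g) := by
  set S := P.comap g with hS
  have hker : LinearMap.ker g ≤ S := by
    intro x hx
    rw [hS, Submodule.mem_comap, LinearMap.mem_ker.1 hx]
    exact P.zero_mem
  have h1 := LinearMap.finrank_range_add_finrank_ker (g.domRestrict S)
  have h2 : LinearMap.range (g.domRestrict S) = P := by
    ext y
    constructor
    · rintro ⟨x, rfl⟩
      exact x.2
    · intro hy
      obtain ⟨x, rfl⟩ := hP hy
      exact ⟨⟨x, hy⟩, rfl⟩
  have h3 : finrank K (LinearMap.ker (g.domRestrict S)) = finrank K (LinearMap.ker g) := by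
    have : LinearMap.ker (g.domRestrict S) = (LinearMap.ker g).comap S.subtype := by
      ext x; rfl
    rw [this]
    exact (Submodule.comapSubtypeEquivOfLe hker).finrank_eq
  rw [h2, h3] at h1
  exact h1.symm

theorem t_PAR : S_PAR := by
  intro hALTR hAUTO hTOR hKC r D hD e hRk R _ lab N hyp
  obtain ⟨k, hk⟩ := hRk
  have hall : ∀ π : Gr r, ∃ i, lab i = π := fun π => by
    obtain ⟨i, _, hi⟩ := hyp.all π
    exact ⟨i, hi⟩
  have hpar : ∑ i, lab i = 0 := hyp.par
  obtain ⟨hA1, hA2⟩ := hAUTO r D hD R lab N univ hpar hyp.recip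
  obtain ⟨hT1, hT2⟩ := hTOR r D hD R lab N univ
  -- the linear maps
  let rowL : MM r R →ₗ[ZMod 2] (R → V) := (rowH D lab N).toZModLinearMap 2
  let sndK : Ks D lab →ₗ[ZMod 2] (R → V) := (LinearMap.snd (ZMod 2) _ _).domRestrict (Ks D lab)
  let rowK : Ks D lab →ₗ[ZMod 2] (R → V) := rowL.domRestrict (Ks D lab)
  have hrowK : ∀ (x : Ks D lab) (i : R), rowK x i = row D lab N univ x.1.1 x.1.2 i :=
    fun x i => rfl
  let f : Ks D lab →ₗ[ZMod 2] Ks D lab →ₗ[ZMod 2] ZMod 2 := (BB R).compl₁₂ sndK rowK
  have hf : ∀ x y : Ks D lab, f x y = ∑ i, om (x.1.2 i) (row D lab N univ y.1.1 y.1.2 i) :=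
    fun x y => rfl
  have hfx : ∀ x, f x x = 0 := by
    intro x
    rw [hf]
    exact (hA1 x.1.1 x.1.2 x.2).2
  have hfs : ∀ x y, f x y = f y x := by
    intro x y
    rw [hf, hf]
    exact hA2 y.1.1 x.1.1 y.1.2 x.1.2 y.2 x.2
  -- dimensions
  have hcardK : Nat.card (Ks D lab) = 4 ^ Fintype.card R := by
    rw [← hKC r D hD R lab hall]
    rfl
  have hcard : ∀ (S : Type) [AddCommGroup S] [Module (ZMod 2) S] [Finite S],
      Nat.card S = 2 ^ finrank (ZMod 2) S := by
    intro S _ _ _
    rw [Module.natCard_eq_pow_finrank (K := ZMod 2)]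
    simp
  have hdK : finrank (ZMod 2) (Ks D lab) = 2 * Fintype.card R := by
    have h1 := hcard (Ks D lab)
    rw [hcardK] at h1
    have h2 : (4 : ℕ) ^ Fintype.card R = 2 ^ (2 * Fintype.card R) := by
      rw [pow_mul]; norm_num
    rw [h2] at h1
    exact (Nat.pow_right_injective (le_refl 2) h1).symm
  have hrn := LinearMap.finrank_range_add_finrank_ker sndK
  -- the orthogonal complement
  let P : Submodule (ZMod 2) (R → V) := LinearMap.BilinForm.orthogonal (BB R) (LinearMap.range sndK)
  have hmemP : ∀ w : R → V, w ∈ P ↔ ∀ x : Ks D lab, BB R (sndK x) w = 0 := by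
    intro w
    constructor
    · intro h x
      exact h _ ⟨x, rfl⟩
    · rintro h _ ⟨x, rfl⟩
      exact h x
  have hPdim : finrank (ZMod 2) P = finrank (ZMod 2) (LinearMap.ker sndK) := by
    have h1 := LinearMap.BilinForm.finrank_orthogonal (B := BB R) BB_nondeg
      (LinearMap.range sndK)
    have h2 := finrank_RV (R := R)
    have h3 : finrank (ZMod 2) P =
      finrank (ZMod 2) (R → V) - finrank (ZMod 2) (LinearMap.range sndK) := h1
    omega
  -- the map from the kernel of `sndK`
  let g0 : LinearMap.ker sndK →ₗ[ZMod 2] (R → V) := rowK.domRestrict (LinearMap.ker sndK)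
  have hinj : LinearMap.ker g0 = ⊥ := by
    rw [LinearMap.ker_eq_bot']
    intro x hx
    have hx2 : x.1.1.2 = 0 := x.2
    have hx3 : ∀ i, row D lab N univ x.1.1.1 x.1.1.2 i = 0 := fun i => congrFun hx i
    have h1 := hT2 hyp.all x.1.1.1 0 (fun i _ => by
      have := hx3 i
      rw [hx2] at this
      exact this)
    apply Subtype.ext
    apply Subtype.ext
    refine Prod.ext ?_ hx2
    rw [h1]
    funext c
    fin_cases c <;> simp
  have hrange : LinearMap.range g0 = P := by
    apply Submodule.eq_of_le_of_finrank_eq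
    · rintro _ ⟨x, rfl⟩
      rw [hmemP]
      intro y
      show f y x.1 = 0
      rw [hfs, hf]
      have hx2 : x.1.1.2 = 0 := x.2
      rw [hx2]
      simp [om]
    · rw [hPdim, ← LinearMap.finrank_range_add_finrank_ker g0, hinj, finrank_bot, add_zero]
  have hPle : P ≤ LinearMap.range rowK := by
    rw [← hrange]
    rintro _ ⟨x, rfl⟩
    exact ⟨x.1, rfl⟩
  have hdim := finrank_comap rowK P hPle
  -- the radical
  obtain ⟨n, hn⟩ := hALTR (Ks D lab) f hfx
  have hrad : Nat.card {x : Ks D lab // ∀ y, f x y = 0} = 2 ^ finrank (ZMod 2) (P.comap rowK) := by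
    rw [← hcard]
    refine Nat.card_congr (Equiv.subtypeEquivRight fun x => ?_)
    rw [Submodule.mem_comap, hmemP]
    constructor
    · intro h y
      have := h y
      rw [hfs] at this
      exact this
    · intro h y
      rw [hfs]
      exact h y
  -- the kernel of `sndK`
  have hR0 : 2 ^ finrank (ZMod 2) (LinearMap.ker sndK) = 2 ^ (2 * k + e) := by
    rw [← hk, ← hcard]
    have hmem : ∀ s : Fin 2 → Gr r, ((s, 0) : MM r R) ∈ Ks D lab ↔ ((s, 0) : Hr r) ∈ D.W := by
      intro s
      rw [mem_Ks]
      have : Xl lab univ s (0 : R → V) = ((s, 0) : Hr r) := by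
        unfold Xl
        refine Prod.ext rfl ?_
        funext c
        simp
      show Xl lab univ s (0 : R → V) ∈ D.W ↔ _
      rw [this]
    refine Nat.card_congr
      { toFun := fun x => ⟨x.1.1.1, (hmem _).1 ?_⟩
        invFun := fun s => ⟨⟨(s.1, 0), (hmem _).2 s.2⟩, rfl⟩
        left_inv := ?_
        right_inv := ?_ }
    · have hx2 : x.1.1.2 = 0 := x.2
      have h1 := x.1.2
      have h2 : x.1.1 = (x.1.1.1, 0) := Prod.ext rfl hx2
      rw [h2] at h1
      exact h1
    · intro x
      have hx2 : x.1.1.2 = 0 := x.2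
      apply Subtype.ext
      apply Subtype.ext
      exact Prod.ext rfl hx2.symm
    · intro s
      rfl
  have hR0' : finrank (ZMod 2) (LinearMap.ker sndK) = 2 * k + e :=
    Nat.pow_right_injective (le_refl 2) hR0
  -- the solutions
  have hSol : {x | Sol D lab N univ x}.ncard = 2 ^ finrank (ZMod 2) (LinearMap.ker rowK) := by
    rw [← hcard, ← Nat.card_coe_set_eq]
    refine Nat.card_congr
      { toFun := fun x => ⟨⟨x.1, x.2.2.1⟩, ?_⟩
        invFun := fun x => ⟨x.1.1, fun i hi => absurd (mem_univ i) hi, x.1.2, fun i _ => ?_⟩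
        left_inv := fun x => rfl
        right_inv := fun x => rfl }
    · rw [LinearMap.mem_ker]
      funext i
      exact x.2.2.2 i (mem_univ i)
    · have := LinearMap.mem_ker.1 x.2
      exact congrFun this i
  -- at least four solutions
  obtain ⟨i0, _⟩ := hall 0
  have h4 : 4 ≤ {x | Sol D lab N univ x}.ncard := by
    rw [← card_V, ← Nat.card_coe_set_eq]
    refine Nat.card_le_card_of_injective
      (fun z : V => (⟨_, hT1 hpar z⟩ : {x : MM r R | Sol D lab N univ x})) ?_
    intro z z' h
    have h1 := congrArg (fun x : {x : MM r R | Sol D lab N univ x} => x.1.2 i0) h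
    simpa using h1
  -- numbers
  set m := finrank (ZMod 2) (LinearMap.ker rowK) with hm
  have hm2 : 2 ≤ m := by
    rw [hSol] at h4
    by_contra hlt
    have : m ≤ 1 := by omega
    have h5 : 2 ^ m ≤ 2 ^ 1 := Nat.pow_le_pow_right (by norm_num) this
    omega
  have htot : 2 * Fintype.card R = 2 * k + e + m + 2 * n := by
    rw [hcardK, hrad, hdim, hPdim, hR0'] at hn
    have h5 : (4 : ℕ) ^ Fintype.card R = 2 ^ (2 * Fintype.card R) := by
      rw [pow_mul]; norm_num
    have h6 : 2 ^ (2 * k + e + m) * 4 ^ n = 2 ^ (2 * k + e + m + 2 * n) := by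
      rw [pow_add _ (2 * k + e + m), pow_mul 2 2 n]; norm_num
    rw [h5, h6] at hn
    exact Nat.pow_right_injective (le_refl 2) hn
  refine ⟨m - 2, by omega, ?_⟩
  unfold Gk
  rw [hSol]
  congr 1
  omega

end Pool.Agent.N713.GK
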